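import Mathlib

set_option autoImplicit false

namespace Pool.Agent.Results.MP_3f72ec_co.NotMonotone

/-- lines of the plane -/
def IsLine (l : Set (ℝ × ℝ)) : Prop :=
  ∃ a b c : ℝ, (a ≠ 0 ∨ b ≠ 0) ∧ l = {p | a * p.1 + b * p.2 = c}

/-- `l` meets the closed segment `pq` in exactly one point, lying in its relative interior -/
def Stabs (l : Set (ℝ × ℝ)) (p q : ℝ × ℝ) : Prop :=
  ∃ x, l ∩ segment ℝ p q = {x} ∧ x ∈ openSegment ℝ p q

/-- the edges of `G`, drawn as segments by `P`, that `l` stabs -/
def stabbed {n : ℕ} (P : Fin n → ℝ × ℝ) (G : SimpleGraph (Fin n)) (l : Set (ℝ × ℝ)) :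
    Set (Sym2 (Fin n)) := {e | e ∈ G.edgeSet ∧ ∃ u v, e = s(u, v) ∧ Stabs l (P u) (P v)}

noncomputable def stabNum {n : ℕ} (P : Fin n → ℝ × ℝ) (G : SimpleGraph (Fin n)) : ℕ :=
  sSup {k | ∃ l, IsLine l ∧ k = (stabbed P G l).ncard}

noncomputable def treeStab {n : ℕ} (P : Fin n → ℝ × ℝ) : ℕ :=
  sInf {k | ∃ T : SimpleGraph (Fin n), T.IsTree ∧ k = stabNum P T}

lemma stabs_imp (a b c : ℝ) (p q : ℝ × ℝ) (hpq : p ≠ q)
    (h : Stabs {p | a * p.1 + b * p.2 = c} p q) :
    (a * p.1 + b * p.2 - c) * (a * q.1 + b * q.2 - c) < 0 := by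
  obtain ⟨x, h1, s, t, hs, ht, hst, hx⟩ := h
  have hxl : x ∈ ({p | a * p.1 + b * p.2 = c} ∩ segment ℝ p q : Set (ℝ × ℝ)) := h1 ▸ rfl
  have e : a * x.1 + b * x.2 = c := hxl.1
  rw [← hx] at e
  simp only [Prod.fst_add, Prod.smul_fst, smul_eq_mul, Prod.snd_add, Prod.smul_snd] at e
  have e2 : s * (a * p.1 + b * p.2 - c) + t * (a * q.1 + b * q.2 - c) = 0 := by
    linear_combination e - c * hst
  have hp : a * p.1 + b * p.2 - c ≠ 0 := by
    intro h0
    have h0' : a * q.1 + b * q.2 - c = 0 := by
      rw [h0, mul_zero, zero_add] at e2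
      exact (mul_eq_zero.1 e2).resolve_left ht.ne'
    have m1 : p ∈ ({x} : Set (ℝ × ℝ)) := h1 ▸ ⟨sub_eq_zero.1 h0, left_mem_segment _ _ _⟩
    have m2 : q ∈ ({x} : Set (ℝ × ℝ)) := h1 ▸ ⟨sub_eq_zero.1 h0', right_mem_segment _ _ _⟩
    exact hpq (m1.trans m2.symm)
  have : 0 < s * (a * p.1 + b * p.2 - c) ^ 2 := by positivity
  by_contra hn
  have h3 := mul_nonneg ht.le (not_lt.1 hn)
  have h4 : s * (a * p.1 + b * p.2 - c) ^ 2 +
      t * ((a * p.1 + b * p.2 - c) * (a * q.1 + b * q.2 - c)) = 0 := by
    linear_combination (a * p.1 + b * p.2 - c) * e2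
  linarith

lemma stabs_of (a b c : ℝ) (p q : ℝ × ℝ)
    (h : (a * p.1 + b * p.2 - c) * (a * q.1 + b * q.2 - c) < 0) :
    Stabs {p | a * p.1 + b * p.2 = c} p q := by
  set u := a * p.1 + b * p.2 - c with hu
  set v := a * q.1 + b * q.2 - c with hv
  have huv : u - v ≠ 0 := by
    intro e; rw [sub_eq_zero.1 e] at h; nlinarith
  have hsq : 0 < (u - v) ^ 2 := by positivity
  have hs : 0 < -v / (u - v) := by
    have : -v / (u - v) = (v ^ 2 - u * v) / (u - v) ^ 2 := by field_simp; ring
    rw [this]; apply div_pos _ hsq; nlinarith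
  have ht : 0 < u / (u - v) := by
    have : u / (u - v) = (u ^ 2 - u * v) / (u - v) ^ 2 := by field_simp
    rw [this]; apply div_pos _ hsq; nlinarith
  have hst : -v / (u - v) + u / (u - v) = 1 := by field_simp; ring
  refine ⟨(-v / (u - v)) • p + (u / (u - v)) • q, ?_, _, _, hs, ht, hst, rfl⟩
  ext y
  constructor
  · rintro ⟨h1, s, t, _, _, e1, rfl⟩
    have e : a * (s • p + t • q).1 + b * (s • p + t • q).2 = c := h1
    simp only [Prod.fst_add, Prod.smul_fst, smul_eq_mul, Prod.snd_add, Prod.smul_snd] at e
    have e2 : s * u + t * v = 0 := by rw [hu, hv]; linear_combination e - c * e1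
    have a1 : s = -v / (u - v) := by field_simp; linear_combination e2 - v * e1
    have a2 : t = u / (u - v) := by field_simp; linear_combination u * e1 - e2
    rw [a1, a2]; rfl
  · rintro rfl
    refine ⟨?_, _, _, hs.le, ht.le, hst, rfl⟩
    show a * _ + b * _ = c
    simp only [Prod.fst_add, Prod.smul_fst, smul_eq_mul, Prod.snd_add, Prod.smul_snd]
    have : -v / (u - v) * u + u / (u - v) * v = 0 := by field_simp; ring
    linear_combination this + c * hst + (v / (u - v)) * hu - (u / (u - v)) * hv

def X : Fin 7 → ℤ := ![1, 2, 0, 0, -1, -2, 0]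
def Y : Fin 7 → ℤ := ![0, 0, 1, 2, -1, -2, 0]
def P (i : Fin 7) : ℝ × ℝ := (X i, Y i)

def eu : Fin 6 → Fin 7 := ![6, 0, 6, 2, 6, 4]
def ev : Fin 6 → Fin 7 := ![0, 1, 2, 3, 4, 5]

def T0 : SimpleGraph (Fin 7) := SimpleGraph.fromEdgeSet (Set.range fun k => s(eu k, ev k))

lemma P_inj : Function.Injective P := by
  intro i j h
  simp only [P, Prod.mk.injEq, Int.cast_inj] at h
  revert h; revert i j; decide

lemma T0_edge : T0.edgeSet = Set.range fun k => s(eu k, ev k) := by
  rw [T0, SimpleGraph.edgeSet_fromEdgeSet, sdiff_eq_left, Set.disjoint_left]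
  rintro _ ⟨k, rfl⟩
  simp only [Sym2.mem_diagSet, Sym2.mk_isDiag_iff]
  revert k; decide

lemma T0_tree : T0.IsTree := by
  rw [SimpleGraph.isTree_iff_connected_and_card]
  have adj : ∀ k, T0.Adj (eu k) (ev k) := fun k => by
    rw [← SimpleGraph.mem_edgeSet, T0_edge]; exact ⟨k, rfl⟩
  constructor
  · rw [SimpleGraph.connected_iff_exists_forall_reachable]
    refine ⟨6, fun w => ?_⟩
    fin_cases w
    · exact (adj 0).reachable
    · exact (adj 0).reachable.trans (adj 1).reachable
    · exact (adj 2).reachable
    · exact (adj 2).reachable.trans (adj 3).reachable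
    · exact (adj 4).reachable
    · exact (adj 4).reachable.trans (adj 5).reachable
    · exact SimpleGraph.Reachable.refl _
  · rw [T0_edge, Nat.card_range_of_injective (by decide)]
    simp

lemma comb (A B C D E F : Prop) [Decidable A] [Decidable B] [Decidable C] [Decidable D] [Decidable E]
    [Decidable F] (h1 : ¬ (A ∧ B)) (h2 : ¬ (C ∧ D)) (h3 : ¬ (E ∧ F))
    (h4 : ¬ ((A ∨ B) ∧ (C ∨ D) ∧ (E ∨ F))) :
    (if A then 1 else 0) + (if B then 1 else 0) + (if C then 1 else 0) + (if D then 1 else 0)
      + (if E then 1 else 0) + (if F then 1 else 0) ≤ 2 := by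
  split_ifs <;> simp_all

lemma upper : stabNum P T0 ≤ 2 := by
  classical
  refine csSup_le' ?_
  rintro k ⟨l, ⟨a, b, c, _, rfl⟩, rfl⟩
  let Q : Fin 6 → Prop := fun k => (a * (P (eu k)).1 + b * (P (eu k)).2 - c) *
    (a * (P (ev k)).1 + b * (P (ev k)).2 - c) < 0
  have sub : stabbed P T0 {p | a * p.1 + b * p.2 = c} ⊆
      ((Finset.univ.filter Q).image (fun k => s(eu k, ev k)) : Finset _) := by
    rintro e ⟨he, u, v, rfl, hs⟩
    have hne : u ≠ v := (T0.mem_edgeSet.1 he).ne
    have := stabs_imp a b c _ _ (P_inj.ne hne) hs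
    rw [T0_edge] at he
    obtain ⟨k, hk⟩ := he
    refine Finset.mem_coe.2 (Finset.mem_image.2 ⟨k, Finset.mem_filter.2 ⟨Finset.mem_univ _, ?_⟩, hk⟩)
    rcases Sym2.eq_iff.1 hk with ⟨h1, h2⟩ | ⟨h1, h2⟩
    · simp only [Q, h1, h2]; exact this
    · simp only [Q, h1, h2]; rw [mul_comm]; exact this
  refine (Set.ncard_le_ncard sub (Finset.finite_toSet _)).trans ?_
  rw [Set.ncard_coe_finset]
  refine Finset.card_image_le.trans ?_
  rw [Finset.card_filter, Fin.sum_univ_six]
  have q0 : Q 0 ↔ (-c) * (a - c) < 0 := by simp [Q, P, X, Y, eu, ev]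
  have q1 : Q 1 ↔ (a - c) * (a * 2 - c) < 0 := by simp [Q, P, X, Y, eu, ev]
  have q2 : Q 2 ↔ (-c) * (b - c) < 0 := by simp [Q, P, X, Y, eu, ev]
  have q3 : Q 3 ↔ (b - c) * (b * 2 - c) < 0 := by simp [Q, P, X, Y, eu, ev]
  have q4 : Q 4 ↔ (-c) * (-a + -b - c) < 0 := by simp [Q, P, X, Y, eu, ev]
  have q5 : Q 5 ↔ (-a + -b - c) * (-(a * 2) + -(b * 2) - c) < 0 := by simp [Q, P, X, Y, eu, ev]
  have n01 : ¬ (Q 0 ∧ Q 1) := by rw [q0, q1]; rintro ⟨h1, h2⟩; nlinarith [sq_nonneg (a - c)]
  have n23 : ¬ (Q 2 ∧ Q 3) := by rw [q2, q3]; rintro ⟨h1, h2⟩; nlinarith [sq_nonneg (b - c)]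
  have n45 : ¬ (Q 4 ∧ Q 5) := by
    rw [q4, q5]; rintro ⟨h1, h2⟩; nlinarith [sq_nonneg (-a + -b - c)]
  have l1 : Q 0 ∨ Q 1 → 0 < c * a := by
    rw [q0, q1]; rintro (h | h) <;> nlinarith [sq_nonneg a, sq_nonneg c]
  have l2 : Q 2 ∨ Q 3 → 0 < c * b := by
    rw [q2, q3]; rintro (h | h) <;> nlinarith [sq_nonneg b, sq_nonneg c]
  have l3 : Q 4 ∨ Q 5 → 0 < c * (-a - b) := by
    rw [q4, q5]; rintro (h | h) <;> nlinarith [sq_nonneg (a + b), sq_nonneg c]
  have n3 : ¬ ((Q 0 ∨ Q 1) ∧ (Q 2 ∨ Q 3) ∧ (Q 4 ∨ Q 5)) := by
    rintro ⟨h1, h2, h3⟩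
    have := l1 h1; have := l2 h2; have := l3 h3
    nlinarith
  exact comb _ _ _ _ _ _ n01 n23 n45 n3

def E : List (Fin 6 × Fin 6) := [(0, 1), (0, 2), (0, 3), (0, 4), (0, 5), (1, 2), (1, 3), (1, 4),
  (1, 5), (2, 3), (2, 4), (2, 5), (3, 4), (3, 5), (4, 5)]

def lines : List (ℤ × ℤ × ℤ) := [(-4, -2, -3), (-6, 2, 3), (-2, 4, -3), (-6, 4, 3)]

def fl (l : ℤ × ℤ × ℤ) (i : Fin 6) : ℤ := l.1 * X i.castSucc + l.2.1 * Y i.castSucc - l.2.2

def cnt : List Bool → List Bool → ℕ
  | true :: c, true :: b => cnt c b + 1
  | _ :: c, _ :: b => cnt c b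
  | _, _ => 0

lemma cnt_map {α : Type} (L : List α) (f g : α → Bool) :
    cnt (L.map f) (L.map g) = (L.filter (fun e => g e && f e)).length := by
  induction L with
  | nil => rfl
  | cons a L ih =>
    simp only [List.map_cons, List.filter_cons]
    cases f a <;> cases g a <;> simp [cnt, ih]

def crossL : List (List Bool) := [[false, true, false, true, true, true, false, true, true, true, false, false, true, true, false],
  [false, false, true, true, true, false, true, true, true, true, true, true, false, false, false],
  [true, false, false, false, true, true, true, true, false, false, false, true, false, true, true],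
  [false, true, true, false, true, true, true, false, true, false, true, false, true, false, true]]

def cutL : List (List Bool) := [[true, true, true, true, true, false, false, false, false, false, false, false, false, false, false],
  [true, false, false, false, false, true, true, true, true, false, false, false, false, false, false],
  [false, true, true, true, true, true, true, true, true, false, false, false, false, false, false],
  [false, true, false, false, false, true, false, false, false, true, true, true, false, false, false],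
  [true, false, true, true, true, true, false, false, false, true, true, true, false, false, false],
  [true, true, false, false, false, false, true, true, true, true, true, true, false, false, false],
  [false, false, true, true, true, false, true, true, true, true, true, true, false, false, false],
  [false, false, true, false, false, false, true, false, false, true, false, false, true, true, false],
  [true, true, false, true, true, false, true, false, false, true, false, false, true, true, false],
  [true, false, true, false, false, true, false, true, true, true, false, false, true, true, false],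
  [false, true, false, true, true, true, false, true, true, true, false, false, true, true, false],
  [false, true, true, false, false, true, true, false, false, false, true, true, true, true, false],
  [true, false, false, true, true, true, true, false, false, false, true, true, true, true, false],
  [true, true, true, false, false, false, false, true, true, false, true, true, true, true, false],
  [false, false, false, true, true, false, false, true, true, false, true, true, true, true, false],
  [false, false, false, true, false, false, false, true, false, false, true, false, true, false, true],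
  [true, true, true, false, true, false, false, true, false, false, true, false, true, false, true],
  [true, false, false, true, false, true, true, false, true, false, true, false, true, false, true],
  [false, true, true, false, true, true, true, false, true, false, true, false, true, false, true],
  [false, true, false, true, false, true, false, true, false, true, false, true, true, false, true],
  [true, false, true, false, true, true, false, true, false, true, false, true, true, false, true],
  [true, true, false, true, false, false, true, false, true, true, false, true, true, false, true],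
  [false, false, true, false, true, false, true, false, true, true, false, true, true, false, true],
  [false, false, true, true, false, false, true, true, false, true, true, false, false, true, true],
  [true, true, false, false, true, false, true, true, false, true, true, false, false, true, true],
  [true, false, true, true, false, true, false, false, true, true, true, false, false, true, true],
  [false, true, false, false, true, true, false, false, true, true, true, false, false, true, true],
  [false, true, true, true, false, true, true, true, false, false, false, true, false, true, true],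
  [true, false, false, false, true, true, true, true, false, false, false, true, false, true, true],
  [true, true, true, true, false, false, false, false, true, false, false, true, false, true, true],
  [false, false, false, false, true, false, false, false, true, false, false, true, false, true, true]]

def chk (bs : List Bool) : Bool :=
  crossL.any (fun c => Nat.ble 3 (cnt c bs)) || cutL.any (fun c => Nat.beq (cnt c bs) 0)

lemma chk_all : ∀ b0 b1 b2 b3 b4 b5 b6 b7 b8 b9 b10 b11 b12 b13 b14 : Bool,
    chk [b0, b1, b2, b3, b4, b5, b6, b7, b8, b9, b10, b11, b12, b13, b14] = true := by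
  decide +kernel

lemma crossL_eq : crossL = lines.map fun l => E.map fun e => decide (fl l e.1 * fl l e.2 < 0) := by
  decide +kernel

lemma cutL_eq : cutL = (List.range 31).map fun A => E.map fun e =>
    (Nat.testBit (A + 1) e.1 != Nat.testBit (A + 1) e.2) := by
  decide +kernel

lemma lower (G : SimpleGraph (Fin 6)) (hG : G.Connected) : 3 ≤ stabNum (P ∘ Fin.castSucc) G := by
  classical
  have h : chk (E.map fun e => decide (G.Adj e.1 e.2)) = true := chk_all _ _ _ _ _ _ _ _ _ _ _ _ _ _ _
  rw [chk, crossL_eq, cutL_eq, Bool.or_eq_true, List.any_map, List.any_map, List.any_eq_true,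
    List.any_eq_true] at h
  rcases h with ⟨l, hl, h⟩ | ⟨A, hA, h⟩
  · rw [Function.comp, cnt_map, Nat.ble_eq] at h
    have hl0 : l.1 ≠ 0 := (by decide : ∀ l ∈ lines, l.1 ≠ 0) l hl
    refine le_trans ?_ (le_csSup ⟨Nat.card (Sym2 (Fin 6)), ?_⟩
      ⟨{p | (l.1 : ℝ) * p.1 + l.2.1 * p.2 = l.2.2}, ⟨_, _, _, Or.inl (by exact_mod_cast hl0), rfl⟩, rfl⟩)
    · set L := E.filter (fun e => decide (G.Adj e.1 e.2) && decide (fl l e.1 * fl l e.2 < 0))
        with hL
      have nd : (L.map fun e => s(e.1, e.2)).Nodup :=
        List.Nodup.sublist (List.Sublist.map _ List.filter_sublist) (by decide)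
      have c := List.toFinset_card_of_nodup nd
      rw [List.length_map] at c
      refine (h.trans c.ge).trans ?_
      rw [← Set.ncard_coe_finset]
      refine Set.ncard_le_ncard ?_ (Set.toFinite _)
      intro e he
      obtain ⟨x, hx, rfl⟩ := List.mem_map.1 (List.mem_toFinset.1 he)
      have hx2 := (List.mem_filter.1 hx).2
      simp only [Bool.and_eq_true, decide_eq_true_eq] at hx2
      refine ⟨hx2.1, x.1, x.2, rfl, stabs_of _ _ _ _ _ ?_⟩
      have := hx2.2
      simp only [fl] at this
      simp only [Function.comp, P]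
      exact_mod_cast this
    · rintro k ⟨l, _, rfl⟩
      exact Set.ncard_le_card _
  · exfalso
    have hA := List.mem_range.1 hA
    have h1 : ∀ A < 31, (∃ u : Fin 6, Nat.testBit (A + 1) u = true) ∧
      ¬ Nat.testBit (A + 1) (5 : Fin 6) = true := by decide
    obtain ⟨⟨u, hu⟩, h5⟩ := h1 A hA
    obtain ⟨w⟩ := hG.preconnected u 5
    obtain ⟨d, _, d1, d2⟩ := w.exists_boundary_dart {v : Fin 6 | Nat.testBit (A + 1) v = true} hu h5
    have hE : ∀ x y : Fin 6, x ≠ y → (x, y) ∈ E ∨ (y, x) ∈ E := by decide
    rw [Function.comp, cnt_map, Nat.beq_eq, List.length_eq_zero_iff, List.filter_eq_nil_iff] at h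
    simp only [Set.mem_ofPred_eq, Bool.not_eq_true] at d1 d2
    rcases hE _ _ d.adj.ne with e | e
    · have := h _ e
      simp [d1, d2, d.adj] at this
    · have := h _ e
      simp [d1, d2, d.adj.symm] at this

theorem result : ∃ (n m : ℕ) (P : Fin n → ℝ × ℝ) (i : Fin m → Fin n), 0 < m ∧
    Function.Injective P ∧ Function.Injective i ∧ treeStab P < treeStab (P ∘ i) := by
  refine ⟨7, 6, P, Fin.castSucc, by norm_num, P_inj, Fin.castSucc_injective 6, ?_⟩
  have h1 : treeStab P ≤ 2 := le_trans (Nat.sInf_le ⟨T0, T0_tree, rfl⟩) upper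
  have h2 : 3 ≤ treeStab (P ∘ Fin.castSucc) := by
    obtain ⟨T, _, hT⟩ := (SimpleGraph.connected_top (V := Fin 6)).exists_isTree_le
    obtain ⟨T', h1, h2⟩ := Nat.sInf_mem (s := {k | ∃ T : SimpleGraph (Fin 6), T.IsTree ∧
      k = stabNum (P ∘ Fin.castSucc) T}) ⟨_, T, hT, rfl⟩
    rw [treeStab, h2]
    exact lower T' h1.connected
  omega

end Pool.Agent.Results.MP_3f72ec_co.NotMonotone
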